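import Pool.Agent.helper81.PJ.Spec

/-! Row pj:FINM: Moebius images of intervals. -/

set_option autoImplicit false

open Finset

namespace Pool.Agent.PJ

open Pool.Agent.PY2

private theorem FINM_point {p : ℕ} [Fact p.Prime] (χ : MulChar (ZMod p) ℂ) (a b c d n w : ZMod p)
    (h1 : c * n + d ≠ 0) (h2 : a + c * w ≠ 0) :
    χ ((a * n + b) / (c * n + d) + w) =
      χ ((c * n + d)⁻¹) * (χ (a + c * w) * χ (n + (b + d * w) / (a + c * w))) := by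
  rw [← map_mul, ← map_mul]
  congr 1
  have e1 : (a + c * w) * (n + (b + d * w) / (a + c * w)) = (a + c * w) * n + (b + d * w) := by
    rw [mul_add, mul_div_cancel₀ _ h2]
  have e2 : w = (c * n + d)⁻¹ * ((c * n + d) * w) := by
    rw [inv_mul_cancel_left₀ h1]
  rw [e1, div_eq_inv_mul]
  calc (c * n + d)⁻¹ * (a * n + b) + w
      = (c * n + d)⁻¹ * (a * n + b) + (c * n + d)⁻¹ * ((c * n + d) * w) := by rw [← e2]
    _ = _ := by ring

private theorem FINM_norm {p : ℕ} [Fact p.Prime] (χ : MulChar (ZMod p) ℂ) (x : ZMod p) :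
    ‖χ x‖ ≤ 1 :=
  DirichletCharacter.norm_le_one χ x

private theorem FINM_inj {p : ℕ} [Fact p.Prime] (a b c d w v : ZMod p) (h : a * d - b * c ≠ 0)
    (h1 : a + c * w ≠ 0) (h2 : a + c * v ≠ 0)
    (he : (b + d * w) / (a + c * w) = (b + d * v) / (a + c * v)) : w = v := by
  rw [div_eq_div_iff h1 h2] at he
  have h3 : (a * d - b * c) * (w - v) = 0 := by linear_combination he
  rcases mul_eq_zero.mp h3 with h4 | h4
  · exact absurd h4 h
  · exact sub_eq_zero.mp h4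

private theorem FINM_big (t C : ℝ) (ht : 0 < t) : ∃ p₁ : ℕ, ∀ p : ℕ, p₁ < p → C ≤ (p : ℝ) ^ t := by
  have h := ((tendsto_rpow_atTop ht).comp tendsto_natCast_atTop_atTop).eventually_ge_atTop C
  obtain ⟨m, hm⟩ := Filter.eventually_atTop.1 h
  exact ⟨m, fun p hp => hm p hp.le⟩

/-- lower bound for `Y` -/
private theorem FINM_Y (p N : ℕ) (X Y ε k : ℝ) (hp : 1 ≤ (p : ℝ)) (hε : 0 < ε) (hX : 0 < X)
    (hY : 0 < Y) (hXk : X ≤ k) (hkN : k ≤ N) (hXp : X ≤ (p : ℝ) ^ (1 / 2 : ℝ))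
    (h : (N : ℝ) ^ 8 * (p : ℝ) ^ (7 / 3 + ε) ≤ X ^ 11 * Y ^ 3) : (p : ℝ) ^ (1 / 4 : ℝ) ≤ Y := by
  have hp0 : (0 : ℝ) < p := by linarith
  have hN0 : (0 : ℝ) < N := by linarith
  have h1 : X ^ 11 ≤ (N : ℝ) ^ 8 * (p : ℝ) ^ (3 / 2 : ℝ) := by
    have e1 : X ^ 11 = X ^ 8 * X ^ 3 := by ring
    have e2 : (p : ℝ) ^ (3 / 2 : ℝ) = ((p : ℝ) ^ (1 / 2 : ℝ)) ^ 3 := by
      rw [← Real.rpow_natCast, ← Real.rpow_mul hp0.le]; norm_num
    rw [e1, e2]
    exact mul_le_mul (pow_le_pow_left₀ hX.le (hXk.trans hkN) 8) (pow_le_pow_left₀ hX.le hXp 3)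
      (by positivity) (by positivity)
  have h2 : (N : ℝ) ^ 8 * (p : ℝ) ^ (7 / 3 + ε) ≤ (N : ℝ) ^ 8 * ((p : ℝ) ^ (3 / 2 : ℝ) * Y ^ 3) := by
    calc (N : ℝ) ^ 8 * (p : ℝ) ^ (7 / 3 + ε) ≤ X ^ 11 * Y ^ 3 := h
      _ ≤ (N : ℝ) ^ 8 * (p : ℝ) ^ (3 / 2 : ℝ) * Y ^ 3 :=
          mul_le_mul_of_nonneg_right h1 (by positivity)
      _ = _ := by ring
  have h3 : (p : ℝ) ^ (7 / 3 + ε) ≤ (p : ℝ) ^ (3 / 2 : ℝ) * Y ^ 3 :=
    le_of_mul_le_mul_left h2 (by positivity)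
  by_contra hcon
  rw [not_le] at hcon
  have h4 : Y ^ 3 < (p : ℝ) ^ (3 / 4 : ℝ) := by
    have e2 : (p : ℝ) ^ (3 / 4 : ℝ) = ((p : ℝ) ^ (1 / 4 : ℝ)) ^ 3 := by
      rw [← Real.rpow_natCast, ← Real.rpow_mul hp0.le]; norm_num
    rw [e2]
    exact pow_lt_pow_left₀ hcon hY.le (by norm_num)
  have h5 : (p : ℝ) ^ (3 / 2 : ℝ) * Y ^ 3 < (p : ℝ) ^ (3 / 2 : ℝ) * (p : ℝ) ^ (3 / 4 : ℝ) :=
    mul_lt_mul_of_pos_left h4 (by positivity)
  rw [← Real.rpow_add hp0] at h5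
  have h6 : (p : ℝ) ^ (3 / 2 + 3 / 4 : ℝ) ≤ (p : ℝ) ^ (7 / 3 + ε) :=
    Real.rpow_le_rpow_of_exponent_le hp (by linarith)
  linarith

theorem FINM (hCUT : CUT_stmt) : FINM_stmt := by
  intro ε hε
  obtain ⟨ε₀, hε₀, hε₀1, hε₀ε⟩ : ∃ ε₀ : ℝ, 0 < ε₀ ∧ ε₀ ≤ 1 ∧ ε₀ ≤ ε :=
    ⟨min ε 1, lt_min hε one_pos, min_le_right _ _, min_le_left _ _⟩
  obtain ⟨δ₀, hδ₀, p₀, hF⟩ := hCUT (ε₀ / 2) (by linarith) (by linarith)
  obtain ⟨δ₁, hδ₁, hδ₁0, hδ₁4⟩ : ∃ δ₁ : ℝ, 0 < δ₁ ∧ δ₁ ≤ δ₀ ∧ δ₁ ≤ 1 / 4 :=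
    ⟨min δ₀ (1 / 4), lt_min hδ₀ (by norm_num), min_le_left _ _, min_le_right _ _⟩
  obtain ⟨p₁, hp₁⟩ := FINM_big (1 / 4) 2 (by norm_num)
  obtain ⟨p₂, hp₂⟩ := FINM_big (ε₀ / 2) 8 (by linarith)
  obtain ⟨p₃, hp₃⟩ := FINM_big (δ₁ / 2) 2 (by linarith)
  refine ⟨δ₁ / 2, by linarith, max (max p₀ p₁) (max p₂ p₃), ?_⟩
  intro p hp hpp A B a b c d N X Y hdet hA hN hX hY hXA hYB hXp hYp hXY χ hχ β hβ
  have q0 : p₀ < p := lt_of_le_of_lt ((le_max_left _ _).trans (le_max_left _ _)) hpp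
  have q1 : 2 ≤ (p : ℝ) ^ (1 / 4 : ℝ) :=
    hp₁ p (lt_of_le_of_lt ((le_max_right _ _).trans (le_max_left _ _)) hpp)
  have q2 : 8 ≤ (p : ℝ) ^ (ε₀ / 2) :=
    hp₂ p (lt_of_le_of_lt ((le_max_left _ _).trans (le_max_right _ _)) hpp)
  have q3 : 2 ≤ (p : ℝ) ^ (δ₁ / 2) :=
    hp₃ p (lt_of_le_of_lt ((le_max_right _ _).trans (le_max_right _ _)) hpp)
  have hp0 : (0 : ℝ) < p := by exact_mod_cast hp.out.pos
  have hp1 : (1 : ℝ) ≤ p := by exact_mod_cast hp.out.one_lt.le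
  -- choose `n`
  choose! n hnN hnd hnz using hA
  set B₁ : Finset (ZMod p) := B.filter (fun w => a + c * w ≠ 0) with hB₁
  set g : ZMod p → ZMod p := fun w => (b + d * w) / (a + c * w) with hg
  have hginj : Set.InjOn g (B₁ : Set (ZMod p)) := by
    intro w hw v hv he
    have hw' := (mem_filter.mp (mem_coe.mp hw)).2
    have hv' := (mem_filter.mp (mem_coe.mp hv)).2
    exact FINM_inj a b c d w v hdet hw' hv' he
  have hBcard : B.card ≤ B₁.card + 1 := by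
    have h2 : (B.filter (fun w => ¬ (a + c * w ≠ 0))).card ≤ 1 := by
      rw [card_le_one]
      intro x hx y hy
      have hx' := (mem_filter.mp hx).2
      have hy' := (mem_filter.mp hy).2
      rw [not_not] at hx' hy'
      have h3 : c * (x - y) = 0 := by linear_combination hx' - hy'
      rcases mul_eq_zero.mp h3 with h4 | h4
      · exfalso
        rw [h4, zero_mul, add_zero] at hx'
        apply hdet
        rw [h4, hx']
        ring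
      · exact sub_eq_zero.mp h4
    have h5 : B₁.card + (B.filter (fun w => ¬ (a + c * w ≠ 0))).card = B.card :=
      card_filter_add_card_filter_not (s := B) (fun w => a + c * w ≠ 0)
    omega
  set B' : Finset (ZMod p) := B₁.image g with hB'
  have hB'card : B'.card = B₁.card := card_image_of_injOn hginj
  set β' : ZMod p → ℂ := fun y => β (Function.invFunOn g (B₁ : Set (ZMod p)) y) *
    χ (a + c * Function.invFunOn g (B₁ : Set (ZMod p)) y) with hβ'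
  have hβ'1 : ∀ y, ‖β' y‖ ≤ 1 := by
    intro y
    rw [hβ']
    simp only [norm_mul]
    exact mul_le_one₀ (hβ _) (norm_nonneg _) (FINM_norm χ _)
  have hinv : ∀ w ∈ B₁, Function.invFunOn g (B₁ : Set (ZMod p)) (g w) = w := by
    intro w hw
    exact hginj.leftInvOn_invFunOn (mem_coe.mpr hw)
  -- the set `A'`
  have hninj : Set.InjOn n (A : Set (ZMod p)) := by
    intro z hz y hy he
    have hz' := mem_coe.mp hz
    have hy' := mem_coe.mp hy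
    rw [hnz z hz', hnz y hy', he]
  set A' : Finset ℕ := A.image n with hA'
  have hA'card : A'.card = A.card := card_image_of_injOn hninj
  have hA'N : A' ⊆ range N := by
    intro x hx
    rw [hA', mem_image] at hx
    obtain ⟨z, hz, rfl⟩ := hx
    exact mem_range.mpr (hnN z hz)
  have hAN : A.card ≤ N := by
    rw [← hA'card]
    exact (card_le_card hA'N).trans (card_range N).le
  -- pointwise bound
  have hpt : ∀ z ∈ A, ‖∑ w ∈ B, β w * χ (z + w)‖ ≤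
      ‖∑ y ∈ B', β' y * χ (((n z : ℕ) : ZMod p) + y)‖ + 1 := by
    intro z hz
    have hsplit : ∑ w ∈ B, β w * χ (z + w) = ∑ w ∈ B₁, β w * χ (z + w) +
        ∑ w ∈ B.filter (fun w => ¬ (a + c * w ≠ 0)), β w * χ (z + w) :=
      (sum_filter_add_sum_filter_not B _ _).symm
    have e1 : ∑ w ∈ B₁, β w * χ (z + w) = χ ((c * (n z : ZMod p) + d)⁻¹) *
        ∑ y ∈ B', β' y * χ (((n z : ℕ) : ZMod p) + y) := by
      rw [hB', sum_image hginj, mul_sum]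
      apply sum_congr rfl
      intro w hw
      have hw' := (mem_filter.mp hw).2
      have e2 := FINM_point χ a b c d (n z : ZMod p) w (hnd z hz) hw'
      rw [← hnz z hz] at e2
      rw [e2, hβ']
      simp only [hinv w hw]
      rw [hg]
      ring
    have e3 : ‖∑ w ∈ B₁, β w * χ (z + w)‖ ≤
        ‖∑ y ∈ B', β' y * χ (((n z : ℕ) : ZMod p) + y)‖ := by
      rw [e1, norm_mul]
      exact mul_le_of_le_one_left (norm_nonneg _) (FINM_norm χ _)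
    have e4 : ‖∑ w ∈ B.filter (fun w => ¬ (a + c * w ≠ 0)), β w * χ (z + w)‖ ≤ 1 := by
      have h5 : B₁.card + (B.filter (fun w => ¬ (a + c * w ≠ 0))).card = B.card :=
        card_filter_add_card_filter_not (s := B) (fun w => a + c * w ≠ 0)
      have h6 : ((B.filter (fun w => ¬ (a + c * w ≠ 0))).card : ℝ) ≤ 1 := by
        have : (B.filter (fun w => ¬ (a + c * w ≠ 0))).card ≤ 1 := by omega
        exact_mod_cast this
      calc ‖∑ w ∈ B.filter (fun w => ¬ (a + c * w ≠ 0)), β w * χ (z + w)‖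
          ≤ ∑ w ∈ B.filter (fun w => ¬ (a + c * w ≠ 0)), ‖β w * χ (z + w)‖ := norm_sum_le _ _
        _ ≤ ∑ w ∈ B.filter (fun w => ¬ (a + c * w ≠ 0)), (1 : ℝ) := by
            apply sum_le_sum
            intro w _
            rw [norm_mul]
            exact mul_le_one₀ (hβ w) (norm_nonneg _) (FINM_norm χ _)
        _ = ((B.filter (fun w => ¬ (a + c * w ≠ 0))).card : ℝ) := by simp
        _ ≤ 1 := h6
    rw [hsplit]
    exact (norm_add_le _ _).trans (add_le_add e3 e4)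
  -- sizes
  have hANr : (A.card : ℝ) ≤ N := by exact_mod_cast hAN
  have hYlow : (p : ℝ) ^ (1 / 4 : ℝ) ≤ Y :=
    FINM_Y p N X Y ε A.card hp1 hε hX hY hXA hANr hXp hXY
  have hBr : (B.card : ℝ) ≤ B₁.card + 1 := by exact_mod_cast hBcard
  have c3 : Y / 2 ≤ (B'.card : ℝ) := by
    rw [hB'card]
    linarith
  have c1 : (p : ℝ) ^ (1 / 3 + ε₀ / 2) ≤ N :=
    (Real.rpow_le_rpow_of_exponent_le hp1 (by linarith)).trans hN
  have c4 : Y / 2 ≤ (p : ℝ) ^ (1 / 2 : ℝ) := by linarith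
  have c5 : (N : ℝ) ^ 8 * (p : ℝ) ^ (7 / 3 + ε₀ / 2) ≤ X ^ 11 * (Y / 2) ^ 3 := by
    have h1 : (p : ℝ) ^ (7 / 3 + ε₀ / 2) * 8 ≤ (p : ℝ) ^ (7 / 3 + ε) := by
      calc (p : ℝ) ^ (7 / 3 + ε₀ / 2) * 8 ≤ (p : ℝ) ^ (7 / 3 + ε₀ / 2) * (p : ℝ) ^ (ε₀ / 2) :=
            mul_le_mul_of_nonneg_left q2 (by positivity)
        _ = (p : ℝ) ^ (7 / 3 + ε₀ / 2 + ε₀ / 2) := (Real.rpow_add hp0 _ _).symm
        _ ≤ (p : ℝ) ^ (7 / 3 + ε) := Real.rpow_le_rpow_of_exponent_le hp1 (by linarith)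
    have h2 : (N : ℝ) ^ 8 * ((p : ℝ) ^ (7 / 3 + ε₀ / 2) * 8) ≤ X ^ 11 * Y ^ 3 :=
      (mul_le_mul_of_nonneg_left h1 (by positivity)).trans hXY
    have h3 : X ^ 11 * (Y / 2) ^ 3 = X ^ 11 * Y ^ 3 / 8 := by ring
    rw [h3, le_div_iff₀ (by norm_num : (0 : ℝ) < 8)]
    linarith
  have hmain := hF p q0 N X (Y / 2) A' B' hA'N c1 hX (by linarith)
    (by rw [hA'card]; exact hXA) c3 hXp c4 c5 χ hχ β' hβ'1
  have hsum : ∑ z ∈ A, ‖∑ w ∈ B, β w * χ (z + w)‖ ≤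
      (p : ℝ) ^ (-δ₀) * (A.card * B'.card) + A.card := by
    calc ∑ z ∈ A, ‖∑ w ∈ B, β w * χ (z + w)‖
        ≤ ∑ z ∈ A, (‖∑ y ∈ B', β' y * χ (((n z : ℕ) : ZMod p) + y)‖ + 1) :=
          sum_le_sum hpt
      _ = ∑ z ∈ A, ‖∑ y ∈ B', β' y * χ (((n z : ℕ) : ZMod p) + y)‖ + A.card := by
          rw [sum_add_distrib]; simp
      _ = ∑ x ∈ A', ‖∑ y ∈ B', β' y * χ ((x : ZMod p) + y)‖ + A.card := by
          rw [hA', sum_image hninj]
      _ ≤ (p : ℝ) ^ (-δ₀) * (A.card * B'.card) + A.card := by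
          rw [hA'card] at hmain
          linarith
  refine hsum.trans ?_
  have hB1B : (B'.card : ℝ) ≤ B.card := by
    rw [hB'card]
    have : B₁.card ≤ B.card := card_filter_le _ _
    exact_mod_cast this
  have hA0 : (0 : ℝ) ≤ A.card := Nat.cast_nonneg _
  have hB0 : (0 : ℝ) ≤ B.card := Nat.cast_nonneg _
  have m1 : (p : ℝ) ^ (-δ₀) ≤ (p : ℝ) ^ (-δ₁) :=
    Real.rpow_le_rpow_of_exponent_le hp1 (by linarith)
  have m2 : 1 ≤ (p : ℝ) ^ (-δ₁) * B.card := by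
    have h2 : (p : ℝ) ^ (-(1 / 4 : ℝ)) * (p : ℝ) ^ (1 / 4 : ℝ) = 1 := by
      rw [← Real.rpow_add hp0]; simp
    have h3 : (p : ℝ) ^ (-(1 / 4 : ℝ)) ≤ (p : ℝ) ^ (-δ₁) :=
      Real.rpow_le_rpow_of_exponent_le hp1 (by linarith)
    rw [← h2]
    exact mul_le_mul h3 (hYlow.trans hYB) (by positivity) (by positivity)
  have m3 : 2 * (p : ℝ) ^ (-δ₁) ≤ (p : ℝ) ^ (-(δ₁ / 2)) := by
    have : (p : ℝ) ^ (-(δ₁ / 2)) = (p : ℝ) ^ (δ₁ / 2) * (p : ℝ) ^ (-δ₁) := by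
      rw [← Real.rpow_add hp0]; congr 1; ring
    rw [this]
    exact mul_le_mul_of_nonneg_right q3 (by positivity)
  calc (p : ℝ) ^ (-δ₀) * (A.card * B'.card) + A.card
      ≤ (p : ℝ) ^ (-δ₁) * (A.card * B.card) + (p : ℝ) ^ (-δ₁) * (A.card * B.card) := by
        apply add_le_add
        · exact mul_le_mul m1 (mul_le_mul_of_nonneg_left hB1B hA0) (by positivity)
            (by positivity)
        · calc (A.card : ℝ) = A.card * 1 := (mul_one _).symm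
            _ ≤ A.card * ((p : ℝ) ^ (-δ₁) * B.card) := mul_le_mul_of_nonneg_left m2 hA0
            _ = (p : ℝ) ^ (-δ₁) * (A.card * B.card) := by ring
    _ = 2 * (p : ℝ) ^ (-δ₁) * (A.card * B.card) := by ring
    _ ≤ (p : ℝ) ^ (-(δ₁ / 2)) * (A.card * B.card) :=
        mul_le_mul_of_nonneg_right m3 (by positivity)

end Pool.Agent.PJ
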